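import Pool.Agent.L7h26.LogDist.Core
import Pool.Agent.L7h26.LogDist.Spec

set_option autoImplicit false

/-!
# Energies depending only on the logarithmic distortion are never elliptic

If `F ↦ W(‖dev₃ log U‖²)` is rank-one convex on `GL⁺(3)` then `W` is constant on `[0,∞)`; nothing is
assumed on `W`. In particular Q1 is true (no such `W`).

Proof: along the simple shear through the identity `K` takes the value `v` at two opposite
parameters, so `W` is nondecreasing, and strictly increasing from some point on if it is not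
constant. Along `diag(1,1,l) + t e₁ ⊗ (e₁ + n e₂)`, with `n` large and `l` suitably chosen, `K(1)`
is larger than `K(0)` and `K(3)`, which contradicts convexity.
-/

open Matrix Set

namespace Pool.Agent.Results.MP_e7e597_an.LogDistortionRigidity

open Pool.Agent.L7h26.LogDist

/-- Legendre–Hadamard ellipticity on `GL⁺(3)` (strict, as in the problem). -/
def LHElliptic (Φ : M3 → ℝ) : Prop :=
  ∀ F : M3, 0 < F.det → ∀ ξ η : Fin 3 → ℝ, ξ ≠ 0 → η ≠ 0 →
    0 < iteratedDeriv 2 (fun t : ℝ => Φ (F + t • vecMulVec ξ η)) 0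

/-- Rank-one convexity on `GL⁺(3)`: convexity on every closed rank-one segment contained in
`GL⁺(3)`. -/
def RankOneConvex (Φ : M3 → ℝ) : Prop :=
  ∀ (F : M3) (ξ η : Fin 3 → ℝ), (∀ t ∈ Icc (0 : ℝ) 1, 0 < (F + t • vecMulVec ξ η).det) →
    ConvexOn ℝ (Icc 0 1) (fun t : ℝ => Φ (F + t • vecMulVec ξ η))

theorem K_nonneg (F : M3) : 0 ≤ K F := by
  unfold K
  simp only [trace, diag_apply, mul_apply, transpose_apply]
  exact Finset.sum_nonneg fun i _ => Finset.sum_nonneg fun j _ => mul_self_nonneg _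

theorem convexOn_affine (φ ψ : ℝ → ℝ) (a b : ℝ) (hb : 0 < b) (h : ConvexOn ℝ (Icc 0 1) φ)
    (hφ : ∀ s, φ s = ψ (a + b * s)) : ConvexOn ℝ (Icc a (a + b)) ψ := by
  have hψ : ∀ t, ψ t = φ ((t - a) / b) := by
    intro t
    rw [hφ]
    congr 1
    field_simp
    ring
  refine ⟨convex_Icc _ _, ?_⟩
  intro x hx y hy c d hc hd hcd
  have mx : (x - a) / b ∈ Icc (0 : ℝ) 1 :=
    ⟨div_nonneg (by linarith [hx.1]) hb.le, by rw [div_le_one hb]; linarith [hx.2]⟩
  have my : (y - a) / b ∈ Icc (0 : ℝ) 1 :=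
    ⟨div_nonneg (by linarith [hy.1]) hb.le, by rw [div_le_one hb]; linarith [hy.2]⟩
  have key := h.2 mx my hc hd hcd
  simp only [smul_eq_mul] at key ⊢
  rw [hψ, hψ x, hψ y]
  have e : (c * x + d * y - a) / b = c * ((x - a) / b) + d * ((y - a) / b) := by
    field_simp
    linear_combination a * hcd
  rw [e]
  exact key

theorem shear_eq (a b t : ℝ) : (!![1, a, 0; 0, 1, 0; 0, 0, 1] : M3) +
    t • vecMulVec ![b, 0, 0] ![0, 1, 0] = !![1, a + b * t, 0; 0, 1, 0; 0, 0, 1] := by
  ext i j
  fin_cases i <;> fin_cases j <;> simp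
  ring

theorem line_eq (n l a t : ℝ) : (!![1, 0, 0; 0, 1, 0; 0, 0, l] : M3) +
    t • vecMulVec ![a, 0, 0] ![1, n, 0] = !![1 + a * t, n * (a * t), 0; 0, 1, 0; 0, 0, l] := by
  ext i j
  fin_cases i <;> fin_cases j <;> simp
  · ring
  · ring

theorem det_block (p q l : ℝ) : (!![p, q, 0; 0, 1, 0; 0, 0, l] : M3).det = p * l := by
  rw [det_fin_three]
  simp

theorem rigid (W : ℝ → ℝ) (h : RankOneConvex (fun F => W (K F))) :
    ∀ u v : ℝ, 0 ≤ u → 0 ≤ v → W u = W v := by
  apply core W
  · intro T hT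
    have h1 := h !![1, -T, 0; 0, 1, 0; 0, 0, 1] ![2 * T, 0, 0] ![0, 1, 0] (by
      intro t _
      rw [shear_eq, det_block]
      norm_num)
    have h2 := convexOn_affine _ (fun t => W (K !![1, t, 0; 0, 1, 0; 0, 0, 1])) (-T) (2 * T)
      (by linarith) h1 (by
        intro s
        simp only [shear_eq])
    have e : -T + 2 * T = T := by ring
    rwa [e] at h2
  · intro n l hl
    have h1 := h !![1, 0, 0; 0, 1, 0; 0, 0, l] ![3, 0, 0] ![1, n, 0] (by
      intro t ht
      rw [line_eq, det_block]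
      have := ht.1
      positivity)
    have h2 := convexOn_affine _ (fun t => W (K !![1 + t, n * t, 0; 0, 1, 0; 0, 0, l])) 0 3
      (by norm_num) h1 (by
        intro s
        simp only [line_eq, zero_add])
    have e : (0 : ℝ) + 3 = 3 := by ring
    rwa [e] at h2

theorem iteratedDeriv_shift (g : ℝ → ℝ) (x : ℝ) :
    iteratedDeriv 2 (fun s => g (x + s)) 0 = deriv^[2] g x := by
  rw [iteratedDeriv_eq_iterate]
  simp only [Function.iterate_succ, Function.iterate_zero, Function.comp, id]
  have e1 : deriv (fun s => g (x + s)) = fun s => deriv g (x + s) := by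
    ext s
    exact deriv_comp_const_add _ _ _
  rw [e1, deriv_comp_const_add]
  simp

/-- ellipticity and continuity give convexity along a line -/
theorem convex_of_LH (Φ : M3 → ℝ) (h : LHElliptic Φ) (F : M3) (ξ η : Fin 3 → ℝ) (hξ : ξ ≠ 0)
    (hη : η ≠ 0) (D : Set ℝ) (hD : Convex ℝ D) (hdet : ∀ t ∈ D, 0 < (F + t • vecMulVec ξ η).det)
    (hcont : ContinuousOn (fun t : ℝ => Φ (F + t • vecMulVec ξ η)) D) :
    ConvexOn ℝ D (fun t : ℝ => Φ (F + t • vecMulVec ξ η)) := by
  refine (strictConvexOn_of_deriv2_pos hD hcont fun x hx => ?_).convexOn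
  have hx' := interior_subset hx
  have h1 := h (F + x • vecMulVec ξ η) (hdet x hx') ξ η hξ hη
  rw [← iteratedDeriv_shift (fun t : ℝ => Φ (F + t • vecMulVec ξ η)) x]
  have e : (fun s : ℝ => Φ (F + (x + s) • vecMulVec ξ η)) =
      fun s : ℝ => Φ (F + x • vecMulVec ξ η + s • vecMulVec ξ η) := by
    ext s
    rw [add_smul, add_assoc]
  rw [e]
  exact h1

/-- continuity of `K` along the lines used -/
theorem cont_block (W : ℝ → ℝ) (hW : ContinuousOn W (Ici 0)) (p q : ℝ → ℝ) (l : ℝ) (hl : 0 < l)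
    (D : Set ℝ) (hp : ContinuousOn p D) (hq : ContinuousOn q D) (hpos : ∀ t ∈ D, 0 < p t) :
    ContinuousOn (fun t => W (K !![p t, q t, 0; 0, 1, 0; 0, 0, l])) D := by
  refine hW.comp (s := D) (g := W) (f := fun t => K !![p t, q t, 0; 0, 1, 0; 0, 0, l]) ?_
    (fun t _ => K_nonneg _)
  have h1 : ContinuousOn (fun t => (Real.arcosh ((p t ^ 2 + q t ^ 2 + 1) / (2 * p t))) ^ 2 / 2 +
        (Real.log (p t) - 2 * Real.log l) ^ 2 / 6) D := by
    have a1 : ContinuousOn (fun t => (p t ^ 2 + q t ^ 2 + 1) / (2 * p t)) D := by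
      apply ContinuousOn.div
      · fun_prop
      · fun_prop
      · intro t ht
        have := hpos t ht
        positivity
    have a2 : ContinuousOn (fun t => Real.arcosh ((p t ^ 2 + q t ^ 2 + 1) / (2 * p t))) D := by
      refine Real.continuousOn_arcosh.comp a1 fun t ht => ?_
      have := hpos t ht
      rw [mem_Ici, le_div_iff₀ (by positivity)]
      nlinarith [sq_nonneg (p t - 1), sq_nonneg (q t)]
    have a3 : ContinuousOn (fun t => Real.log (p t)) D :=
      hp.log fun t ht => (hpos t ht).ne'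
    fun_prop
  refine h1.congr fun t ht => ?_
  exact K_block (p t) (q t) l (hpos t ht) hl

theorem elliptic_imp (W : ℝ → ℝ) (hW : ContDiffOn ℝ 2 W (Ici 0))
    (h : LHElliptic (fun F => W (K F))) : ∀ u v : ℝ, 0 ≤ u → 0 ≤ v → W u = W v := by
  have hWc : ContinuousOn W (Ici 0) := hW.continuousOn
  apply core W
  · intro T hT
    have e : ∀ t : ℝ, (!![1, 0, 0; 0, 1, 0; 0, 0, 1] : M3) + t • vecMulVec ![1, 0, 0] ![0, 1, 0] =
        !![1, t, 0; 0, 1, 0; 0, 0, 1] := by
      intro t
      rw [shear_eq]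
      simp
    have := convex_of_LH (fun F => W (K F)) h !![1, 0, 0; 0, 1, 0; 0, 0, 1] ![1, 0, 0] ![0, 1, 0]
      (by intro h0; simpa using congrFun h0 0) (by intro h0; simpa using congrFun h0 1)
      (Icc (-T) T) (convex_Icc _ _)
      (by intro t _; rw [e, det_block]; norm_num)
      (by
        simp only [e]
        exact cont_block W hWc (fun _ => 1) (fun t => t) 1 one_pos _ continuousOn_const
          continuousOn_id (fun _ _ => one_pos))
    simpa only [e] using this
  · intro n l hl
    have e : ∀ t : ℝ, (!![1, 0, 0; 0, 1, 0; 0, 0, l] : M3) + t • vecMulVec ![1, 0, 0] ![1, n, 0] =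
        !![1 + t, n * t, 0; 0, 1, 0; 0, 0, l] := by
      intro t
      rw [line_eq]
      simp
    have := convex_of_LH (fun F => W (K F)) h !![1, 0, 0; 0, 1, 0; 0, 0, l] ![1, 0, 0] ![1, n, 0]
      (by intro h0; simpa using congrFun h0 0) (by intro h0; simpa using congrFun h0 0)
      (Icc 0 3) (convex_Icc _ _)
      (by
        intro t ht
        rw [e, det_block]
        have := ht.1
        positivity)
      (by
        simp only [e]
        exact cont_block W hWc (fun t => 1 + t) (fun t => n * t) l hl _ (by fun_prop)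
          (by fun_prop) (fun t ht => by have := ht.1; positivity))
    simpa only [e] using this

/-- Rigidity: if `F ↦ W(‖dev₃ log U‖²)` is rank-one convex on `GL⁺(3)`, for any function `W`
whatsoever, then `W` is constant on `[0,∞)`. Consequently there is no `C²` function
`W : [0,∞) → ℝ` for which `F ↦ W(‖dev₃ log U‖²)` is Legendre–Hadamard elliptic on `GL⁺(3)` (Q1).
(The last part records that `U = stretch F` and `log U = logU F` are what the problem says: `U` is
positive definite with `U² = FᵀF`, and `log U` is symmetric with exponential `U`.) -/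
theorem result :
    (∀ W : ℝ → ℝ, RankOneConvex (fun F => W (K F)) →
      ∀ u v : ℝ, 0 ≤ u → 0 ≤ v → W u = W v) ∧
    (¬ ∃ W : ℝ → ℝ, ContDiffOn ℝ 2 W (Ici 0) ∧ LHElliptic (fun F => W (K F))) ∧
    (∀ F : M3, 0 < F.det → (stretch F).PosDef ∧ stretch F * stretch F = Fᵀ * F ∧
      (logU F)ᵀ = logU F ∧ NormedSpace.exp (logU F) = stretch F) := by
  refine ⟨rigid, ?_, spec⟩
  rintro ⟨W, hW, h⟩
  have hconst := elliptic_imp W hW h
  have h1 := h 1 (by simp) ![1, 0, 0] ![1, 0, 0] (by intro h0; simpa using congrFun h0 0)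
    (by intro h0; simpa using congrFun h0 0)
  have e : (fun t : ℝ => W (K (1 + t • vecMulVec ![1, 0, 0] ![1, 0, 0]))) = fun _ => W 0 := by
    ext t
    exact hconst _ _ (K_nonneg _) le_rfl
  simp only [e] at h1
  simp [iteratedDeriv_const] at h1

end Pool.Agent.Results.MP_e7e597_an.LogDistortionRigidity
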